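import Mathlib

/-! Length and Bruhat order on the symmetric group. -/

namespace Pool.Agent.MP_93b8e4_co.H43

/-- Coxeter length of a permutation: the number of inversions. -/
def len {N : ℕ} (x : Equiv.Perm (Fin N)) : ℕ :=
  (Finset.univ.filter (fun p : Fin N × Fin N => p.1 < p.2 ∧ x p.2 < x p.1)).card

/-- Bruhat order: the reflexive transitive closure of `x → t x` where `t` is a transposition
and the length goes up. -/
def BruhatLE {N : ℕ} (u w : Equiv.Perm (Fin N)) : Prop :=
  Relation.ReflTransGen
    (fun x y : Equiv.Perm (Fin N) => len x < len y ∧ ∃ t : Equiv.Perm (Fin N), t.IsSwap ∧ y = t * x)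
    u w

/-- Strict Bruhat order. -/
def BruhatLT {N : ℕ} (u w : Equiv.Perm (Fin N)) : Prop := BruhatLE u w ∧ u ≠ w

/-- The interval `[u, w]` is smooth: the number of transpositions `t` with `t u ≤ w` is the
length of `w`. -/
def IsSmooth {N : ℕ} (u w : Equiv.Perm (Fin N)) : Prop :=
  Set.ncard {t : Equiv.Perm (Fin N) | t.IsSwap ∧ BruhatLE (t * u) w} = len w

end Pool.Agent.MP_93b8e4_co.H43
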