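import Pool.Agent.MP_93b8e4_co.H43.Core
import Pool.Agent.MP_93b8e4_co.H43.Defs

/-! From permutations of `Fin N` to maps `ℕ → ℕ`. -/

namespace Pool.Agent.MP_93b8e4_co.H43

open Finset Equiv

variable {N : ℕ}

/-- the inverse permutation as a map `ℕ → ℕ` -/
def X (u : Perm (Fin N)) : ℕ → ℕ := fun i => if h : i < N then (u⁻¹ ⟨i, h⟩).val else i

lemma X_apply (u : Perm (Fin N)) (i : Fin N) : X u i = (u⁻¹ i).val := by
  simp [X, i.2]

lemma X_isP (u : Perm (Fin N)) : IsP N (X u) := by
  refine ⟨fun i hi => ?_, fun i j hi hj h => ?_⟩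
  · rw [show i = (⟨i, hi⟩ : Fin N).val from rfl, X_apply]; exact (u⁻¹ _).2
  · rw [show i = (⟨i, hi⟩ : Fin N).val from rfl, show j = (⟨j, hj⟩ : Fin N).val from rfl,
      X_apply, X_apply] at h
    have := u⁻¹.injective (Fin.ext h)
    simpa using this

lemma X_inj {u w : Perm (Fin N)} (h : ∀ i, i < N → X u i = X w i) : u = w := by
  apply inv_injective
  ext i
  have := h i i.2
  rwa [X_apply, X_apply] at this

lemma X_swap (u : Perm (Fin N)) (a b : Fin N) : X (swap a b * u) = sw (X u) a b := by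
  funext i
  by_cases hi : i < N
  · rw [show i = (⟨i, hi⟩ : Fin N).val from rfl, X_apply]
    unfold sw
    rw [← Fin.val_injective.map_swap, X_apply]
    simp
  · rw [sw_ne (X u) (by rintro rfl; exact hi a.2) (by rintro rfl; exact hi b.2)]
    simp [X, hi]

/-- number of pairs `i < j < N` -/
def C (N : ℕ) : ℤ := ∑ i ∈ range N, ∑ j ∈ range N, if i < j then 1 else 0

lemma sum_pairs (f : ℕ → ℕ → ℤ) :
    ∑ i ∈ range N, ∑ j ∈ range N, f i j = ∑ p : Fin N × Fin N, f p.1 p.2 := by
  rw [Fintype.sum_prod_type, ← Fin.sum_univ_eq_sum_range (fun i => ∑ j ∈ range N, f i j)]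
  exact sum_congr rfl fun i _ => (Fin.sum_univ_eq_sum_range (fun j => f i j) N).symm

lemma len_eq (u : Perm (Fin N)) : (len u : ℤ) = C N - noninv N (X u) := by
  unfold noninv T C
  rw [sum_pairs, sum_pairs (fun i j => Fn i (X u i) j (X u j)), ← sum_sub_distrib]
  unfold len
  rw [card_filter]
  push_cast
  refine Fintype.sum_equiv ((Equiv.prodCongr u u).trans (Equiv.prodComm _ _)) _ _ ?_
  rintro ⟨a, b⟩
  simp only [Equiv.trans_apply, Equiv.prodCongr_apply, Prod.map, Equiv.prodComm_apply,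
    Prod.swap, X_apply, Fn, Perm.coe_inv, Equiv.symm_apply_apply, Fin.lt_def]
  have : (u a).val = (u b).val → a.val = b.val := fun h => by
    rw [u.injective (Fin.ext h)]
  have : a.val = b.val → (u a).val = (u b).val := fun h => by
    rw [Fin.ext h]
  split_ifs <;> omega

lemma len_lt_swap (u : Perm (Fin N)) {a b : Fin N} (hab : a < b) (h : X u a < X u b) :
    len u < len (swap a b * u) := by
  have h1 := len_eq u
  have h2 := len_eq (swap a b * u)
  have h3 := noninv_sw (N := N) hab b.2 h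
  rw [X_swap] at h2
  omega

lemma len_swap_lt (u : Perm (Fin N)) {a b : Fin N} (hab : a < b) (h : ¬ X u a < X u b) :
    len (swap a b * u) < len u := by
  have hne : X u a ≠ X u b := fun h => hab.ne (Fin.ext ((X_isP u).inj _ _ a.2 b.2 h))
  have := len_lt_swap (swap a b * u) hab (by rw [X_swap, sw_left, sw_right]; omega)
  rwa [swap_mul_self_mul] at this

lemma isSwap_lt {t : Perm (Fin N)} (ht : t.IsSwap) : ∃ a b : Fin N, a < b ∧ t = swap a b := by
  obtain ⟨a, b, hab, rfl⟩ := ht
  rcases lt_or_gt_of_ne hab with h | h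
  · exact ⟨a, b, h, rfl⟩
  · exact ⟨b, a, h, swap_comm _ _⟩

lemma le_of_bruhat {u w : Perm (Fin N)} (h : BruhatLE u w) : Le N (X u) (X w) := by
  induction h with
  | refl => intro p q _ _; exact le_rfl
  | tail _ hbc ih =>
    obtain ⟨h1, t, ht, rfl⟩ := hbc
    obtain ⟨a, b, hab, rfl⟩ := isSwap_lt ht
    have h2 := mt (len_swap_lt _ hab) (not_lt.2 h1.le)
    rw [not_not] at h2
    intro p q hp hq
    have := ih p q hp hq
    rw [X_swap, r_sw _ hab h2]
    split_ifs <;> omega

lemma bruhat_step (u : Perm (Fin N)) {a b : Fin N} (hab : a < b) (h : X u a < X u b) :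
    BruhatLE u (swap a b * u) :=
  Relation.ReflTransGen.single ⟨len_lt_swap u hab h, _, ⟨a, b, hab.ne, rfl⟩, rfl⟩

lemma bruhat_of_le {w : Perm (Fin N)} : ∀ (n : ℕ) (u : Perm (Fin N)), noninv N (X u) ≤ n →
    Le N (X u) (X w) → BruhatLE u w := by
  intro n
  induction n with
  | zero =>
    intro u hn hle
    by_cases hne : ∃ i, i < N ∧ X u i ≠ X w i
    · obtain ⟨i, j, a1, a2, a3, a4⟩ := exists_move'' (X_isP u) (X_isP w) hle hne
      have := noninv_sw a1 a2 a3
      have := noninv_nonneg N (sw (X u) i j)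
      omega
    · push Not at hne
      rw [X_inj hne]; exact Relation.ReflTransGen.refl
  | succ n ih =>
    intro u hn hle
    by_cases hne : ∃ i, i < N ∧ X u i ≠ X w i
    · obtain ⟨i, j, a1, a2, a3, a4⟩ := exists_move'' (X_isP u) (X_isP w) hle hne
      have b1 := noninv_sw a1 a2 a3
      have b2 := bruhat_step u (a := ⟨i, by omega⟩) (b := ⟨j, a2⟩) a1 a3
      refine Relation.ReflTransGen.trans b2 (ih _ ?_ ?_)
      · rw [X_swap]; simp only; omega
      · rw [X_swap]; exact hle.sw a1 a3 a4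
    · push Not at hne
      rw [X_inj hne]; exact Relation.ReflTransGen.refl

lemma bruhat_iff {u w : Perm (Fin N)} : BruhatLE u w ↔ Le N (X u) (X w) :=
  ⟨le_of_bruhat, bruhat_of_le _ u (Int.self_le_toNat _)⟩

lemma swap_le_iff {u w : Perm (Fin N)} (h : BruhatLE u w) {a b : Fin N} (hab : a < b) :
    BruhatLE (swap a b * u) w ↔
      ¬ meets (fun p q => r (X u) p q = r (X w) p q) a (X u a) b (X u b) := by
  have hle := bruhat_iff.1 h
  rw [bruhat_iff, X_swap]
  by_cases hx : X u a < X u b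
  · constructor
    · rintro h1 ⟨p, q, c1, c2, c3, c4, c5⟩
      have := h1 p q (by have := b.2; omega) (by have := (X_isP u).lt b b.2; omega)
      rw [r_sw _ hab hx, if_pos ⟨c1, c2, c3, c4⟩] at this
      omega
    · intro h1
      apply hle.sw hab hx
      intro p q c1 c2 c3 c4
      have := hle p q (by have := b.2; omega) (by have := (X_isP u).lt b b.2; omega)
      have h2 : r (X u) p q ≠ r (X w) p q := fun h => h1 ⟨p, q, c1, c2, c3, c4, h⟩
      omega
  · have hne : X u a ≠ X u b := fun h => hab.ne (Fin.ext ((X_isP u).inj _ _ a.2 b.2 h))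
    constructor
    · rintro - ⟨p, q, c1, c2, c3, c4, c5⟩
      omega
    · intro _ p q hp hq
      have h1 := hle p q hp hq
      have h2 := r_sw (sw (X u) a b) hab (by rw [sw_left, sw_right]; omega) p q
      rw [sw_sw] at h2
      split_ifs at h2 <;> omega

lemma count_eq {u w : Perm (Fin N)} (h : BruhatLE u w) :
    ((Set.ncard {t : Perm (Fin N) | t.IsSwap ∧ BruhatLE (t * u) w} : ℕ) : ℤ) =
      C N - P N (fun p q => r (X u) p q = r (X w) p q) (X u) := by
  classical
  set Z : ℕ → ℕ → Prop := fun p q => r (X u) p q = r (X w) p q with hZ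
  have e : {t : Perm (Fin N) | t.IsSwap ∧ BruhatLE (t * u) w} =
      ((univ.filter (fun p : Fin N × Fin N => p.1 < p.2 ∧
        ¬ meets Z p.1 (X u p.1) p.2 (X u p.2))).image (fun p => swap p.1 p.2) :
          Finset (Perm (Fin N))) := by
    ext t
    simp only [Set.mem_ofPred_eq, coe_image, coe_filter, mem_univ, true_and, Set.mem_image]
    constructor
    · rintro ⟨h1, h2⟩
      obtain ⟨a, b, hab, rfl⟩ := isSwap_lt h1
      exact ⟨(a, b), ⟨hab, (swap_le_iff h hab).1 h2⟩, rfl⟩
    · rintro ⟨⟨a, b⟩, ⟨hab, h2⟩, rfl⟩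
      exact ⟨⟨a, b, hab.ne, rfl⟩, (swap_le_iff h hab).2 h2⟩
  rw [e, Set.ncard_coe_finset, card_image_of_injOn]
  · unfold P T C
    rw [sum_pairs, sum_pairs (fun i j => Fm Z i (X u i) j (X u j)), ← sum_sub_distrib,
      card_filter]
    push_cast
    refine sum_congr rfl ?_
    rintro ⟨a, b⟩ -
    simp only [Fm, Fin.lt_def]
    by_cases hm : meets Z a (X u a) b (X u b)
    · have : a.val < b.val := by obtain ⟨p, q, _⟩ := hm; omega
      simp [hm, this]
    · simp [hm]
  · rintro ⟨a, b⟩ h1 ⟨c, d⟩ h2 h3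
    simp only [coe_filter, mem_univ, true_and, Set.mem_ofPred_eq] at h1 h2 h3
    have k1 := congrArg (fun f : Perm (Fin N) => f a) h3
    simp only [swap_apply_left, swap_apply_def] at k1
    have l1 := h1.1
    have l2 := h2.1
    split_ifs at k1 with m1 m2
    · rw [m1, k1]
    · subst m2; subst k1; exact absurd l1 (not_lt.2 l2.le)
    · exact absurd k1 l1.ne'

theorem main {n : ℕ} (u w : Perm (Fin (n + 1))) (hlt : BruhatLT u w) (hs : IsSmooth u w) :
    ∃ i : Fin n, BruhatLT u (swap i.castSucc i.succ * u) ∧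
      (¬ BruhatLE (swap i.castSucc i.succ * u) w ∨ BruhatLT (swap i.castSucc i.succ * w) w) := by
  by_contra hcon
  push Not at hcon
  have h1 := count_eq hlt.1
  have h2 := len_eq w
  unfold IsSmooth at hs
  refine core (X_isP u) (X_isP w) (bruhat_iff.1 hlt.1) ?_ (by omega) ?_
  · by_contra h
    push Not at h
    exact hlt.2 (X_inj h)
  · intro i hi hx
    have hab : (⟨i, by omega⟩ : Fin n).castSucc < (⟨i, by omega⟩ : Fin n).succ :=
      Fin.castSucc_lt_succ
    obtain ⟨c1, c2⟩ := hcon ⟨i, by omega⟩ ⟨bruhat_step u hab hx, fun h => by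
      have := len_lt_swap u hab hx
      rw [← h] at this; omega⟩
    refine ⟨(swap_le_iff hlt.1 hab).1 c1, ?_⟩
    by_contra hw
    apply c2
    have l1 := len_swap_lt w hab hw
    refine ⟨Relation.ReflTransGen.single ⟨l1, _, ⟨_, _, hab.ne, rfl⟩,
      (swap_mul_self_mul _ _ _).symm⟩, fun h => ?_⟩
    rw [h] at l1; omega

end Pool.Agent.MP_93b8e4_co.H43
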