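import Pool.Agent.MP_93b8e4_co.H43.Count

/-! The combinatorial core. -/

namespace Pool.Agent.MP_93b8e4_co.H43

/-- a configuration: a cell `(k, q)` of `Z`, the rows `k, …, j-1` have values `< q`, row `j`
has a value `≥ q`. -/
def Config (N : ℕ) (x w : ℕ → ℕ) (k j q : ℕ) : Prop :=
  k < j ∧ j < N ∧ r x k q = r w k q ∧ (∀ i, k ≤ i → i < j → x i < q) ∧ q ≤ x j

lemma config_of_cell {N : ℕ} {x w : ℕ → ℕ} (hx : IsP N x) (hw : IsP N w) {k q : ℕ} (hk : k < N)
    (hz : r x k q = r w k q) (h1 : x k < q) (h2 : q ≤ w k) : ∃ j, Config N x w k j q := by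
  classical
  have hwk := hw.lt k hk
  have e : ∃ i, k ≤ i ∧ i < N ∧ q ≤ x i ∧ x i < N := by
    apply (box x hk.le (show q ≤ N by omega)).2.1
    have := (box w hk.le (show q ≤ N by omega)).2.2 ⟨k, le_rfl, hk, h2, hwk⟩
    rw [r_N hw N le_rfl, r_N hw q (by omega), r_N' hw k hk.le] at this
    rw [r_N hx N le_rfl, r_N hx q (by omega), r_N' hx k hk.le]
    omega
  have s := Nat.find_spec e
  refine ⟨Nat.find e, ?_, s.2.1, hz, ?_, s.2.2.1⟩
  · have : Nat.find e ≠ k := by
      intro h; rw [h] at s; omega
    omega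
  · intro i a1 a2
    have := Nat.find_min e a2
    have := hx.lt i (by omega)
    omega

theorem core {N : ℕ} {x w : ℕ → ℕ} (hx : IsP N x) (hw : IsP N w) (hle : Le N x w)
    (hne : ∃ i, i < N ∧ x i ≠ w i)
    (hs : noninv N w ≤ P N (fun p q => r x p q = r w p q) x)
    (H : ∀ i, i + 1 < N → x i < x (i + 1) →
      (¬ meets (fun p q => r x p q = r w p q) i (x i) (i + 1) (x (i + 1))) ∧ w i < w (i + 1)) :
    False := by
  classical
  set Z : ℕ → ℕ → Prop := fun p q => r x p q = r w p q with hZ
  have hZle : ∀ p q, p ≤ N → q ≤ N → Z p q → r x p q ≤ r w p q := fun p q _ _ h => h.le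
  have hPw : P N Z x ≤ P N Z w := P_le_top' hx hw hle hZle
  -- good ascents
  have good : ∀ i q, i + 1 < N → x i < q → q ≤ x (i + 1) → ¬ Z (i + 1) q := by
    intro i q h1 h2 h3 h4
    exact (H i h1 (by omega)).1 ⟨i + 1, q, by omega, le_rfl, h2, h3, h4⟩
  -- each ascent row has a cell
  have cell : ∀ i, i + 1 < N → x i < x (i + 1) →
      ∃ q, w i < q ∧ q ≤ w (i + 1) ∧ Z (i + 1) q ∧ (q ≤ x i ∨ x (i + 1) < q) := by
    intro i h1 h2
    obtain ⟨p, q, a1, a2, a3, a4, a5⟩ :=
      meets_of_P_eq (hs.trans hPw) (Nat.lt_succ_self i) h1 (H i h1 h2).2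
    obtain rfl : p = i + 1 := by omega
    refine ⟨q, a3, a4, a5, ?_⟩
    by_contra hcon
    exact good i q h1 (by omega) (by omega) a5
  -- there is an ascent
  have asc : ∃ i, i + 1 < N ∧ x i < x (i + 1) := by
    obtain ⟨i, j, a1, a2, a3, -⟩ := exists_move'' hx hw hle hne
    by_contra hcon
    push Not at hcon
    have : ∀ m, i + m < N → x (i + m) ≤ x i := by
      intro m
      induction m with
      | zero => intro _; exact le_rfl
      | succ m ih =>
        intro h
        exact (hcon (i + m) h).trans (ih (by omega))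
    have := this (j - i) (by omega)
    rw [show i + (j - i) = j by omega] at this
    omega
  -- there is a configuration
  have ex : ∃ k j q, Config N x w k j q := by
    set i := Nat.find asc with hi
    obtain ⟨a1, a2⟩ := Nat.find_spec asc
    rw [← hi] at a1 a2
    obtain ⟨q, b1, b2, b3, b4⟩ := cell i a1 a2
    rcases b4 with b4 | b4
    · exfalso
      have dec : ∀ m t, t + m = i → x i ≤ x t := by
        intro m
        induction m with
        | zero => intro t ht; rw [← ht]; exact le_rfl
        | succ m ih =>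
          intro t ht
          have h1 := ih (t + 1) (by omega)
          have h2 := Nat.find_min asc (show t < Nat.find asc by omega)
          omega
      have c1 := (box w (Nat.zero_le (i + 1)) (Nat.zero_le q)).2.2
        ⟨i, Nat.zero_le _, by omega, Nat.zero_le _, b1⟩
      have c2 := (box x (Nat.zero_le (i + 1)) (Nat.zero_le q)).2.1
      simp only [r_zero, r_zero'] at c1 c2
      obtain ⟨t, -, t2, -, t4⟩ := c2 (by simp only [hZ] at b3; omega)
      have := dec (i - t) t (by omega)
      omega
    · obtain ⟨j, hj⟩ := config_of_cell hx hw a1 b3 b4 b2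
      exact ⟨_, _, _, hj⟩
  -- the extremal configuration
  obtain ⟨k0, hk0⟩ := ex
  have hk0N : k0 ≤ N := by obtain ⟨j, q, h⟩ := hk0; have := h.1; have := h.2.1; omega
  set k := Nat.findGreatest (fun k => ∃ j q, Config N x w k j q) N with hk
  have hkspec : ∃ j q, Config N x w k j q :=
    Nat.findGreatest_spec (P := fun k => ∃ j q, Config N x w k j q) hk0N hk0
  have kmax : ∀ k' j q, Config N x w k' j q → k' ≤ k := by
    intro k' j q h
    exact Nat.le_findGreatest (by have := h.1; have := h.2.1; omega) ⟨j, q, h⟩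
  set j := Nat.find hkspec with hj
  obtain ⟨q, c1, c2, c3, c4, c5⟩ := Nat.find_spec hkspec
  rw [← hj] at c1 c2 c4 c5
  have jmin : ∀ j' q, Config N x w k j' q → j ≤ j' := fun j' q h => Nat.find_min' hkspec ⟨q, h⟩
  clear_value j k
  obtain ⟨j, rfl⟩ : ∃ j', j = j' + 1 := ⟨j - 1, by omega⟩
  have hxj := c4 j (by omega) (by omega)
  have hβ := hx.lt (j + 1) c2
  -- (a)
  have ha : q ≤ w k := by
    by_contra hcon
    have hz : Z (k + 1) q := by
      simp only [hZ]
      rw [r_succ, r_succ, c3, if_pos (c4 k le_rfl c1), if_pos (by omega)]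
    rcases Nat.lt_or_ge k j with h | h
    · have := kmax (k + 1) (j + 1) q ⟨by omega, c2, hz, fun i a1 a2 => c4 i (by omega) a2, c5⟩
      omega
    · obtain rfl : k = j := by omega
      exact good k q c2 hxj c5 hz
  -- (b)
  set q'' := Nat.findGreatest (fun t => ∃ p, k < p ∧ p ≤ j + 1 ∧ Z p t) (x (j + 1)) with hq''
  obtain ⟨k', d1, d2, d3⟩ : ∃ p, k < p ∧ p ≤ j + 1 ∧ Z p q'' :=
    Nat.findGreatest_spec (P := fun t => ∃ p, k < p ∧ p ≤ j + 1 ∧ Z p t) (Nat.zero_le _)
      ⟨j + 1, c1, le_rfl, by simp only [hZ, r_zero']⟩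
  have qle : q'' ≤ x (j + 1) := Nat.findGreatest_le _
  have hfree : ∀ p t, k < p → p ≤ j + 1 → q'' < t → t ≤ x (j + 1) → ¬ Z p t := by
    intro p t a1 a2 a3 a4 a5
    exact Nat.findGreatest_is_greatest a3 a4 ⟨p, a1, a2, a5⟩
  clear_value q''
  have hb : q'' < q := by
    by_contra hcon
    rcases Nat.lt_or_ge j k' with h | h
    · obtain rfl : k' = j + 1 := by omega
      exact good j q'' c2 (by omega) qle d3
    · have := kmax k' (j + 1) q'' ⟨by omega, c2, d3,
        fun i a1 a2 => by have := c4 i (by omega) a2; omega, qle⟩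
      omega
  by_cases hd : r w k q'' < r x k q''
  · have := P_lt_top hw d1 d2 c2 hb c5 c3 d3 hfree (noninv N x).toNat x (Int.self_le_toNat _)
      hx hle hZle rfl hd
    have := P_le_noninv N Z w
    omega
  · have hz0 : Z k q'' := le_antisymm (by omega) (hle k q'' (by omega) (by omega))
    -- going down while the values stay `≥ q''`
    have down : ∀ m, k ≤ m → m ≤ j + 1 → (∀ i, k ≤ i → i < m → q'' ≤ x i) →
        Z m q'' ∧ ∀ i, k ≤ i → i < m → q'' ≤ w i := by
      intro m hm
      induction m, hm using Nat.le_induction with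
      | base => intro _ _; exact ⟨hz0, fun i a1 a2 => by omega⟩
      | succ m hm ih =>
        intro a1 a2
        obtain ⟨b1, b2⟩ := ih (by omega) (fun i e1 e2 => a2 i e1 (by omega))
        have b3 := hle (m + 1) q'' (by omega) (by omega)
        have b4 := a2 m hm (by omega)
        simp only [hZ] at b1 ⊢
        rw [r_succ, r_succ] at b3 ⊢
        refine ⟨by split_ifs at b3 ⊢ <;> omega, fun i e1 e2 => ?_⟩
        rcases Nat.lt_or_ge i m with h | h
        · exact b2 i e1 h
        · obtain rfl : i = m := by omega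
          split_ifs at b3 <;> omega
    by_cases hall : ∀ i, k ≤ i → i < j + 1 → q'' ≤ x i
    · obtain ⟨-, b2⟩ := down (j + 1) (by omega) le_rfl hall
      have b3 := b2 j (by omega) (by omega)
      obtain ⟨t, e1, e2, e3, e4⟩ := cell j c2 (by omega)
      rcases e4 with e4 | e4
      · exact hfree (j + 1) t c1 le_rfl (by omega) (by omega) e3
      · obtain ⟨j', hj'⟩ := config_of_cell hx hw c2 e3 e4 e2
        have := kmax _ _ _ hj'
        omega
    · have hex : ∃ i, k ≤ i ∧ i < j + 1 ∧ x i < q'' := by
        by_contra hcon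
        push Not at hcon
        exact hall hcon
      obtain ⟨m1, m2, m3⟩ := Nat.find_spec hex
      set m := Nat.find hex with hm
      obtain ⟨b1, -⟩ := down m m1 (by omega) (fun i e1 e2 => by
        have := Nat.find_min hex e2
        omega)
      have hex2 : ∃ i, m ≤ i ∧ q'' ≤ x i := ⟨j + 1, by omega, qle⟩
      obtain ⟨n1, n2⟩ := Nat.find_spec hex2
      have n3 : Nat.find hex2 ≤ j + 1 := Nat.find_min' hex2 ⟨by omega, qle⟩
      have n4 : ∀ i, m ≤ i → i < Nat.find hex2 → x i < q'' := by
        intro i e1 e2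
        have := Nat.find_min hex2 e2
        omega
      set j' := Nat.find hex2 with hj'
      have n5 : j' ≠ m := by intro h; rw [h] at n2; omega
      have cf : Config N x w m j' q'' := ⟨by omega, by omega, b1, n4, n2⟩
      have := kmax _ _ _ cf
      have hmk : m = k := by omega
      rw [hmk] at cf n4
      have := jmin _ _ cf
      have up : ∀ p, k + 1 ≤ p → p ≤ j + 1 → r w p q'' < r x p q'' := by
        intro p hp
        induction p, hp using Nat.le_induction with
        | base =>
          intro _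
          simp only [hZ] at hz0
          rw [r_succ, r_succ, if_pos (n4 k le_rfl (by omega)), if_neg (by omega)]
          omega
        | succ p hp ih =>
          intro a1
          have := ih (by omega)
          rw [r_succ, r_succ, if_pos (n4 p (by omega) (by omega))]
          split_ifs <;> omega
      have := up k' d1 d2
      simp only [hZ] at d3
      omega

end Pool.Agent.MP_93b8e4_co.H43
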