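import Pool.Agent.MP_93b8e4_co.H43.Rank

/-! Counting pairs of points of a permutation; monotonicity under moves. -/

namespace Pool.Agent.MP_93b8e4_co.H43

open Finset

/-- sum of `F` over all ordered pairs of points -/
def T (N : ℕ) (F : ℕ → ℕ → ℕ → ℕ → ℤ) (x : ℕ → ℕ) : ℤ :=
  ∑ i ∈ range N, ∑ j ∈ range N, F i (x i) j (x j)

/-- contribution of a third point `(c, γ)` with two points `(i, a)`, `(j, b)` -/
def G (F : ℕ → ℕ → ℕ → ℕ → ℤ) (c γ i a j b : ℕ) : ℤ :=
  F c γ i a + F i a c γ + F c γ j b + F j b c γ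

/-- contribution of the two points themselves -/
def D (F : ℕ → ℕ → ℕ → ℕ → ℤ) (i a j b : ℕ) : ℤ :=
  F i a i a + F i a j b + F j b i a + F j b j b

lemma T_split (N : ℕ) (F : ℕ → ℕ → ℕ → ℕ → ℤ) (x : ℕ → ℕ) {i j : ℕ} (hij : i < j) (hj : j < N) :
    T N F x = (∑ c ∈ ((range N).erase i).erase j, ∑ e ∈ ((range N).erase i).erase j,
        F c (x c) e (x e)) + (∑ c ∈ ((range N).erase i).erase j, G F c (x c) i (x i) j (x j))
        + D F i (x i) j (x j) := by
  have hi' : i ∈ range N := mem_range.2 (by omega)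
  have hj' : j ∈ (range N).erase i := mem_erase.2 ⟨by omega, mem_range.2 hj⟩
  have hs : ∀ f : ℕ → ℤ, ∑ c ∈ range N, f c =
      f i + f j + ∑ c ∈ ((range N).erase i).erase j, f c := by
    intro f
    rw [← add_sum_erase _ _ hi', ← add_sum_erase _ _ hj', add_assoc]
  unfold T G D
  rw [hs]
  simp only [hs, sum_add_distrib]
  ring

lemma T_sw_sub (N : ℕ) (F : ℕ → ℕ → ℕ → ℕ → ℤ) (x : ℕ → ℕ) {i j : ℕ} (hij : i < j) (hj : j < N) :
    T N F (sw x i j) - T N F x =
      (∑ c ∈ ((range N).erase i).erase j,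
        (G F c (x c) i (x j) j (x i) - G F c (x c) i (x i) j (x j)))
        + (D F i (x j) j (x i) - D F i (x i) j (x j)) := by
  rw [T_split N F x hij hj, T_split N F (sw x i j) hij hj, sw_left, sw_right, sum_sub_distrib]
  have h : ∀ c ∈ ((range N).erase i).erase j, sw x i j c = x c := by
    intro c hc
    simp only [mem_erase] at hc
    exact sw_ne x hc.2.1 hc.1
  have e1 : (∑ c ∈ ((range N).erase i).erase j, ∑ e ∈ ((range N).erase i).erase j,
      F c (sw x i j c) e (sw x i j e)) = ∑ c ∈ ((range N).erase i).erase j,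
      ∑ e ∈ ((range N).erase i).erase j, F c (x c) e (x e) :=
    sum_congr rfl fun c hc => sum_congr rfl fun e he => by rw [h c hc, h e he]
  have e2 : (∑ c ∈ ((range N).erase i).erase j, G F c (sw x i j c) i (x j) j (x i)) =
      ∑ c ∈ ((range N).erase i).erase j, G F c (x c) i (x j) j (x i) :=
    sum_congr rfl fun c hc => by rw [h c hc]
  rw [e1, e2]; ring

/-- indicator of increasing pairs -/
def Fn (i a j b : ℕ) : ℤ := if i < j ∧ a < b then 1 else 0

/-- number of non-inversions -/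
def noninv (N : ℕ) (x : ℕ → ℕ) : ℤ := T N Fn x

lemma noninv_nonneg (N : ℕ) (x : ℕ → ℕ) : 0 ≤ noninv N x := by
  unfold noninv T
  exact sum_nonneg fun _ _ => sum_nonneg fun _ _ => by unfold Fn; split_ifs <;> omega

lemma noninv_sw {N : ℕ} {x : ℕ → ℕ} {i j : ℕ} (hij : i < j) (hj : j < N) (hx : x i < x j) :
    noninv N (sw x i j) < noninv N x := by
  have h := T_sw_sub N Fn x hij hj
  have h1 : (∑ c ∈ ((range N).erase i).erase j,
        (G Fn c (x c) i (x j) j (x i) - G Fn c (x c) i (x i) j (x j))) ≤ 0 := by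
    apply sum_nonpos
    intro c hc
    simp only [mem_erase] at hc
    unfold G Fn
    split_ifs <;> omega
  have h2 : D Fn i (x j) j (x i) - D Fn i (x i) j (x j) < 0 := by
    unfold D Fn
    split_ifs <;> omega
  unfold noninv
  omega

/-- the rectangle spanned by `(i, a)` and `(j, b)` contains a cell of `Z` -/
def meets (Z : ℕ → ℕ → Prop) (i a j b : ℕ) : Prop :=
  ∃ p q, i < p ∧ p ≤ j ∧ a < q ∧ q ≤ b ∧ Z p q

open Classical in
noncomputable def Fm (Z : ℕ → ℕ → Prop) (i a j b : ℕ) : ℤ := if meets Z i a j b then 1 else 0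

/-- number of increasing pairs whose rectangle meets `Z` -/
noncomputable def P (N : ℕ) (Z : ℕ → ℕ → Prop) (x : ℕ → ℕ) : ℤ := T N (Fm Z) x

lemma Fm_le (Z : ℕ → ℕ → Prop) (i a j b : ℕ) : Fm Z i a j b ≤ Fn i a j b := by
  unfold Fm Fn
  split_ifs with h1 h2
  · rfl
  · obtain ⟨p, q, _⟩ := h1; omega
  · omega
  · rfl

lemma P_le_noninv (N : ℕ) (Z : ℕ → ℕ → Prop) (x : ℕ → ℕ) : P N Z x ≤ noninv N x := by
  unfold P noninv T
  exact sum_le_sum fun _ _ => sum_le_sum fun _ _ => Fm_le _ _ _ _ _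

lemma meets_of_P_eq {N : ℕ} {Z : ℕ → ℕ → Prop} {x : ℕ → ℕ} (h : noninv N x ≤ P N Z x)
    {i j : ℕ} (hij : i < j) (hj : j < N) (hx : x i < x j) : meets Z i (x i) j (x j) := by
  by_contra hn
  have : P N Z x < noninv N x := by
    unfold P noninv T
    apply sum_lt_sum (fun _ _ => sum_le_sum fun _ _ => Fm_le _ _ _ _ _)
    refine ⟨i, mem_range.2 (by omega), ?_⟩
    apply sum_lt_sum (fun _ _ => Fm_le _ _ _ _ _)
    refine ⟨j, mem_range.2 hj, ?_⟩
    unfold Fm Fn
    rw [if_neg hn, if_pos ⟨hij, hx⟩]; omega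
  omega

lemma Fm_mono {Z : ℕ → ℕ → Prop} {i a j b i' a' j' b' : ℕ}
    (h : meets Z i a j b → meets Z i' a' j' b') : Fm Z i a j b ≤ Fm Z i' a' j' b' := by
  unfold Fm
  split_ifs with h1 h2
  · rfl
  · exact absurd (h h1) h2
  · omega
  · rfl

lemma Fm_nonneg (Z : ℕ → ℕ → Prop) (i a j b : ℕ) : 0 ≤ Fm Z i a j b := by
  unfold Fm; split_ifs <;> omega

lemma Fm_le_one (Z : ℕ → ℕ → Prop) (i a j b : ℕ) : Fm Z i a j b ≤ 1 := by
  unfold Fm; split_ifs <;> omega

lemma Fm_zero {Z : ℕ → ℕ → Prop} {i a j b : ℕ} (h : ¬ meets Z i a j b) : Fm Z i a j b = 0 := by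
  unfold Fm; rw [if_neg h]

lemma Fm_one {Z : ℕ → ℕ → Prop} {i a j b : ℕ} (h : meets Z i a j b) : Fm Z i a j b = 1 := by
  unfold Fm; rw [if_pos h]

/-- third point in front -/
lemma G_front {Z : ℕ → ℕ → Prop} {i a j b : ℕ} (hij : i < j) (hab : a < b)
    (hn : ¬ meets Z i a j b) (c γ : ℕ) :
    Fm Z c γ i a + Fm Z c γ j b ≤ Fm Z c γ i b + Fm Z c γ j a := by
  have n1 := Fm_nonneg Z c γ i b
  have n2 := Fm_nonneg Z c γ j a
  have l1 := Fm_le_one Z c γ j b
  by_cases h1 : meets Z c γ i a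
  · obtain ⟨p, q, a1, a2, a3, a4, a5⟩ := h1
    rw [Fm_one (Z := Z) (i := c) (a := γ) (j := i) (b := b) ⟨p, q, a1, a2, a3, by omega, a5⟩,
      Fm_one (Z := Z) (i := c) (a := γ) (j := j) (b := a) ⟨p, q, a1, by omega, a3, a4, a5⟩]
    have := Fm_le_one Z c γ i a
    omega
  · rw [Fm_zero h1]
    by_cases h2 : meets Z c γ j b
    · obtain ⟨p, q, a1, a2, a3, a4, a5⟩ := h2
      by_cases hp : p ≤ i
      · rw [Fm_one (Z := Z) (i := c) (a := γ) (j := i) (b := b) ⟨p, q, a1, hp, a3, a4, a5⟩]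
        omega
      · by_cases hq : q ≤ a
        · rw [Fm_one (Z := Z) (i := c) (a := γ) (j := j) (b := a) ⟨p, q, a1, a2, a3, hq, a5⟩]
          omega
        · exact absurd ⟨p, q, by omega, a2, by omega, a4, a5⟩ hn
    · rw [Fm_zero h2]; omega

/-- third point behind -/
lemma G_back {Z : ℕ → ℕ → Prop} {i a j b : ℕ} (hij : i < j) (hab : a < b)
    (hn : ¬ meets Z i a j b) (c γ : ℕ) :
    Fm Z i a c γ + Fm Z j b c γ ≤ Fm Z i b c γ + Fm Z j a c γ := by
  have n1 := Fm_nonneg Z i b c γ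
  have n2 := Fm_nonneg Z j a c γ
  have l1 := Fm_le_one Z i a c γ
  by_cases h1 : meets Z j b c γ
  · obtain ⟨p, q, a1, a2, a3, a4, a5⟩ := h1
    rw [Fm_one (Z := Z) (i := i) (a := b) (j := c) (b := γ) ⟨p, q, by omega, a2, a3, a4, a5⟩,
      Fm_one (Z := Z) (i := j) (a := a) (j := c) (b := γ) ⟨p, q, a1, a2, by omega, a4, a5⟩]
    have := Fm_le_one Z j b c γ
    omega
  · rw [Fm_zero h1]
    by_cases h2 : meets Z i a c γ
    · obtain ⟨p, q, a1, a2, a3, a4, a5⟩ := h2
      by_cases hp : j < p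
      · rw [Fm_one (Z := Z) (i := j) (a := a) (j := c) (b := γ) ⟨p, q, hp, a2, a3, a4, a5⟩]
        omega
      · by_cases hq : b < q
        · rw [Fm_one (Z := Z) (i := i) (a := b) (j := c) (b := γ) ⟨p, q, a1, a2, hq, a4, a5⟩]
          omega
        · exact absurd ⟨p, q, a1, by omega, a3, by omega, a5⟩ hn
    · rw [Fm_zero h2]; omega

lemma G_le {Z : ℕ → ℕ → Prop} {i a j b : ℕ} (hij : i < j) (hab : a < b)
    (hn : ¬ meets Z i a j b) (c γ : ℕ) :
    0 ≤ G (Fm Z) c γ i b j a - G (Fm Z) c γ i a j b := by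
  have h1 := G_front hij hab hn c γ
  have h2 := G_back hij hab hn c γ
  unfold G; omega

lemma D_le {Z : ℕ → ℕ → Prop} {i a j b : ℕ} (hij : i < j)
    (hn : ¬ meets Z i a j b) :
    0 ≤ D (Fm Z) i b j a - D (Fm Z) i a j b := by
  have z : ∀ s t u v, u ≤ s → Fm Z s t u v = 0 := by
    intro s t u v h
    apply Fm_zero
    rintro ⟨p, q, _⟩; omega
  unfold D
  rw [z i b i b le_rfl, z j a j a le_rfl, z i a i a le_rfl, z j b j b le_rfl, z j b i a hij.le,
    z j a i b hij.le, Fm_zero hn]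
  have := Fm_nonneg Z i b j a
  omega

lemma P_le_sw {N : ℕ} {Z : ℕ → ℕ → Prop} {x : ℕ → ℕ} {i j : ℕ} (hij : i < j) (hj : j < N)
    (hx : x i < x j) (hn : ¬ meets Z i (x i) j (x j)) : P N Z x ≤ P N Z (sw x i j) := by
  have h := T_sw_sub N (Fm Z) x hij hj
  have h1 := sum_nonneg (s := ((range N).erase i).erase j) fun c _ => G_le hij hx hn c (x c)
  have h2 := D_le (a := x i) (b := x j) hij hn
  unfold P; omega

lemma P_lt_sw {N : ℕ} {Z : ℕ → ℕ → Prop} {x : ℕ → ℕ} {i j e : ℕ} (hij : i < j) (hje : j < e)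
    (he : e < N) (hx : x i < x j) (hn : ¬ meets Z i (x i) j (x j))
    (h1 : ¬ meets Z j (x j) e (x e)) (h2 : meets Z i (x j) e (x e))
    (h3 : meets Z j (x i) e (x e)) : P N Z x < P N Z (sw x i j) := by
  have h := T_sw_sub N (Fm Z) x hij (show j < N by omega)
  have h4 : 0 < ∑ c ∈ ((range N).erase i).erase j,
      (G (Fm Z) c (x c) i (x j) j (x i) - G (Fm Z) c (x c) i (x i) j (x j)) := by
    apply sum_pos' (fun c _ => G_le hij hx hn c (x c))
    refine ⟨e, by simp only [mem_erase, mem_range]; omega, ?_⟩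
    have g := G_front hij hx hn e (x e)
    have := Fm_le_one Z i (x i) e (x e)
    unfold G
    rw [Fm_zero h1, Fm_one h2, Fm_one h3]
    omega
  have h5 := D_le (a := x i) (b := x j) hij hn
  unfold P; omega

lemma T_congr {N : ℕ} (F : ℕ → ℕ → ℕ → ℕ → ℤ) {x w : ℕ → ℕ} (h : ∀ i, i < N → x i = w i) :
    T N F x = T N F w :=
  sum_congr rfl fun i hi => sum_congr rfl fun j hj => by
    rw [h i (mem_range.1 hi), h j (mem_range.1 hj)]

/-- Going up to `w`, the count `P` does not decrease. -/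
lemma P_le_top {N : ℕ} {Z : ℕ → ℕ → Prop} {w : ℕ → ℕ} (hw : IsP N w) :
    ∀ (n : ℕ) (x : ℕ → ℕ), noninv N x ≤ n → IsP N x → Le N x w →
      (∀ p q, p ≤ N → q ≤ N → Z p q → r x p q ≤ r w p q) → P N Z x ≤ P N Z w := by
  intro n
  induction n with
  | zero =>
    intro x hn hx hle hZ
    by_cases hne : ∃ i, i < N ∧ x i ≠ w i
    · obtain ⟨i, j, a1, a2, a3, a4⟩ := exists_move'' hx hw hle hne
      have := noninv_sw a1 a2 a3
      have := noninv_nonneg N (sw x i j)
      omega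
    · push Not at hne
      exact (T_congr _ hne).le
  | succ n ih =>
    intro x hn hx hle hZ
    by_cases hne : ∃ i, i < N ∧ x i ≠ w i
    · obtain ⟨i, j, a1, a2, a3, a4⟩ := exists_move'' hx hw hle hne
      have b1 := noninv_sw a1 a2 a3
      have b2 : ¬ meets Z i (x i) j (x j) := by
        rintro ⟨p, q, c1, c2, c3, c4, c5⟩
        have := a4 p q c1 c2 c3 c4
        have := hZ p q (by omega) (by have := hx.lt j a2; omega) c5
        omega
      refine (P_le_sw a1 a2 a3 b2).trans (ih _ (by omega) (hx.sw (by omega) a2)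
        (hle.sw a1 a3 a4) ?_)
      intro p q hp hq hz
      have := hZ p q hp hq hz
      rw [r_sw x a1 a3]
      split_ifs <;> omega
    · push Not at hne
      exact (T_congr _ hne).le

lemma P_le_top' {N : ℕ} {Z : ℕ → ℕ → Prop} {x w : ℕ → ℕ} (hx : IsP N x) (hw : IsP N w)
    (hle : Le N x w) (hZ : ∀ p q, p ≤ N → q ≤ N → Z p q → r x p q ≤ r w p q) :
    P N Z x ≤ P N Z w :=
  P_le_top hw (noninv N x).toNat x (Int.self_le_toNat _) hx hle hZ

/-- The singularity criterion. -/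
lemma P_lt_top {N : ℕ} {Z : ℕ → ℕ → Prop} {w : ℕ → ℕ} (hw : IsP N w)
    {k k' e β q q'' : ℕ} (hk : k < k') (hk' : k' ≤ e) (he : e < N) (hq : q'' < q) (hβ : q ≤ β)
    (z1 : Z k q) (z2 : Z k' q'')
    (hfree : ∀ p t, k < p → p ≤ e → q'' < t → t ≤ β → ¬ Z p t) :
    ∀ (n : ℕ) (x : ℕ → ℕ), noninv N x ≤ n → IsP N x → Le N x w →
      (∀ p q, p ≤ N → q ≤ N → Z p q → r x p q ≤ r w p q) → x e = β →
      r w k q'' < r x k q'' → P N Z x < P N Z w := by
  intro n
  induction n with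
  | zero =>
    intro x hn hx hle hZ hxe hlt
    have hβN : β < N := hxe ▸ hx.lt e he
    obtain ⟨i, j, a1, a2, a3, a4, a5, a6⟩ := exists_move' hx hw hle (k := k) (q0 := q'') (q := q)
      (by omega) hq (by omega) hlt
      (le_antisymm (hZ k q (by omega) (by omega) z1) (hle k q (by omega) (by omega)))
    have := noninv_sw (show i < j by omega) a3 a4
    have := noninv_nonneg N (sw x i j)
    omega
  | succ n ih =>
    intro x hn hx hle hZ hxe hlt
    have hβN : β < N := hxe ▸ hx.lt e he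
    obtain ⟨i, j, a1, a2, a3, a4, a5, a6⟩ := exists_move' hx hw hle (k := k) (q0 := q'') (q := q)
      (by omega) hq (by omega) hlt
      (le_antisymm (hZ k q (by omega) (by omega) z1) (hle k q (by omega) (by omega)))
    have hij : i < j := by omega
    have b1 := noninv_sw hij a3 a4
    have b2 : ¬ meets Z i (x i) j (x j) := by
      rintro ⟨p, q, c1, c2, c3, c4, c5⟩
      have := a6 p q c1 c2 c3 c4
      have := hZ p q (by omega) (by have := hx.lt j a3; omega) c5
      omega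
    have b3 : ∀ p q, p ≤ N → q ≤ N → Z p q → r (sw x i j) p q ≤ r w p q := by
      intro p q hp hq hz
      have := hZ p q hp hq hz
      rw [r_sw x hij a4]
      split_ifs <;> omega
    have b4 := hx.sw (show i < N by omega) a3
    have b5 := hle.sw hij a4 a6
    by_cases hc : x i < q'' ∧ q'' ≤ x j
    · have hjk : j < k' := by
        by_contra hcon
        exact b2 ⟨k', q'', by omega, by omega, hc.1, hc.2, z2⟩
      refine lt_of_lt_of_le (P_lt_sw (e := e) hij (by omega) he a4 b2 ?_ ?_ ?_)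
        (P_le_top' b4 hw b5 b3)
      · rintro ⟨p, t, c1, c2, c3, c4, c5⟩
        exact hfree p t (by omega) c2 (by omega) (by omega) c5
      · exact ⟨k, q, a1, by omega, a5, by omega, z1⟩
      · exact ⟨k', q'', hjk, hk', hc.1, by omega, z2⟩
    · refine lt_of_le_of_lt (P_le_sw hij a3 a4 b2) (ih _ (by omega) b4 b5 b3 ?_ ?_)
      · rw [sw_ne x, hxe]
        · rintro rfl; omega
        · rintro rfl; omega
      · rw [r_sw x hij a4, if_neg (by omega)]; omega

end Pool.Agent.MP_93b8e4_co.H43
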