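import Mathlib

/-! Rank matrices of permutations of `{0, …, N-1}`, viewed as maps `ℕ → ℕ`. -/

namespace Pool.Agent.MP_93b8e4_co.H43

open Finset

/-- number of `i < p` with `x i < q` -/
def r (x : ℕ → ℕ) (p q : ℕ) : ℤ := ∑ i ∈ range p, if x i < q then 1 else 0

structure IsP (N : ℕ) (x : ℕ → ℕ) : Prop where
  lt : ∀ i, i < N → x i < N
  inj : ∀ i j, i < N → j < N → x i = x j → i = j

def sw (x : ℕ → ℕ) (i j : ℕ) : ℕ → ℕ := fun k => x (Equiv.swap i j k)

lemma r_zero (x : ℕ → ℕ) (q : ℕ) : r x 0 q = 0 := by simp [r]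

lemma r_zero' (x : ℕ → ℕ) (p : ℕ) : r x p 0 = 0 := by simp [r]

lemma r_succ (x : ℕ → ℕ) (p q : ℕ) : r x (p + 1) q = r x p q + if x p < q then 1 else 0 := by
  unfold r; rw [sum_range_succ]

lemma r_N' {N : ℕ} {x : ℕ → ℕ} (hx : IsP N x) (p : ℕ) (hp : p ≤ N) : r x p N = p := by
  induction p with
  | zero => simp [r]
  | succ p ih =>
    rw [r_succ, ih (by omega), if_pos (hx.lt p (by omega))]
    push_cast; ring

lemma r_N {N : ℕ} {x : ℕ → ℕ} (hx : IsP N x) (q : ℕ) (hq : q ≤ N) : r x N q = q := by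
  have hinj : Set.InjOn x (range N : Finset ℕ) := by
    intro i hi j hj h
    exact hx.inj i j (by simpa using hi) (by simpa using hj) h
  have himg : (range N).image x = range N := by
    apply eq_of_subset_of_card_le
    · intro y hy
      obtain ⟨i, hi, rfl⟩ := mem_image.1 hy
      exact mem_range.2 (hx.lt i (mem_range.1 hi))
    · rw [card_image_of_injOn hinj]
  have h1 : r x N q = ∑ y ∈ (range N).image x, if y < q then (1 : ℤ) else 0 := by
    rw [sum_image hinj]; rfl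
  rw [h1, himg]
  clear h1 himg hinj hx
  induction N with
  | zero => simp at hq; simp [hq]
  | succ N ih =>
    rcases Nat.lt_or_ge N q with h | h
    · have : q = N + 1 := by omega
      subst this
      rw [sum_congr rfl (g := fun _ => (1 : ℤ))]
      · simp
      · intro y hy
        rw [if_pos (mem_range.1 hy)]
    · rw [sum_range_succ, ih h, if_neg (by omega)]; simp

lemma box (x : ℕ → ℕ) {p p' q q' : ℕ} (hp : p ≤ p') (hq : q ≤ q') :
    0 ≤ r x p' q' - r x p q' - r x p' q + r x p q ∧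
    (0 < r x p' q' - r x p q' - r x p' q + r x p q ↔
      ∃ i, p ≤ i ∧ i < p' ∧ q ≤ x i ∧ x i < q') := by
  induction p', hp using Nat.le_induction with
  | base =>
    refine ⟨by omega, ⟨fun h => by omega, ?_⟩⟩
    rintro ⟨i, h1, h2, -⟩; omega
  | succ p' hp ih =>
    obtain ⟨ih1, ih2⟩ := ih
    rw [r_succ, r_succ]
    refine ⟨by split_ifs <;> omega, ⟨fun h => ?_, ?_⟩⟩
    · by_cases hb : q ≤ x p' ∧ x p' < q'
      · exact ⟨p', hp, by omega, hb⟩
      · obtain ⟨i, h1, h2, h3⟩ := ih2.1 (by split_ifs at h <;> omega)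
        exact ⟨i, h1, by omega, h3⟩
    · rintro ⟨i, h1, h2, h3, h4⟩
      by_cases hi : i = p'
      · subst hi; split_ifs <;> omega
      · have := ih2.2 ⟨i, h1, by omega, h3, h4⟩
        split_ifs <;> omega

lemma sw_left (x : ℕ → ℕ) (i j : ℕ) : sw x i j i = x j := by simp [sw]
lemma sw_right (x : ℕ → ℕ) (i j : ℕ) : sw x i j j = x i := by simp [sw]
lemma sw_ne (x : ℕ → ℕ) {i j k : ℕ} (h1 : k ≠ i) (h2 : k ≠ j) : sw x i j k = x k := by
  simp [sw, Equiv.swap_apply_of_ne_of_ne h1 h2]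
lemma sw_sw (x : ℕ → ℕ) (i j : ℕ) : sw (sw x i j) i j = x := by
  funext k; simp [sw]

lemma IsP.sw {N : ℕ} {x : ℕ → ℕ} (hx : IsP N x) {i j : ℕ} (hi : i < N) (hj : j < N) :
    IsP N (sw x i j) := by
  have h : ∀ k, k < N → Equiv.swap i j k < N := by
    intro k hk
    rw [Equiv.swap_apply_def]; split_ifs <;> omega
  refine ⟨fun k hk => hx.lt _ (h k hk), fun a b ha hb hab => ?_⟩
  exact (Equiv.swap i j).injective (hx.inj _ _ (h a ha) (h b hb) hab)

lemma r_sw (x : ℕ → ℕ) {i j : ℕ} (hij : i < j) (hx : x i < x j) (p q : ℕ) :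
    r (sw x i j) p q = r x p q - if i < p ∧ p ≤ j ∧ x i < q ∧ q ≤ x j then 1 else 0 := by
  induction p with
  | zero => simp [r]
  | succ p ih =>
    rw [r_succ, r_succ, ih]
    by_cases h1 : p = i
    · subst h1; rw [sw_left]; split_ifs <;> omega
    · by_cases h2 : p = j
      · subst h2; rw [sw_right]; split_ifs <;> omega
      · rw [sw_ne x h1 h2]; split_ifs <;> omega

/-- The rank-matrix order. -/
def Le (N : ℕ) (x w : ℕ → ℕ) : Prop := ∀ p q, p ≤ N → q ≤ N → r w p q ≤ r x p q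

lemma eq_of_r_eq {N : ℕ} {x w : ℕ → ℕ} (hx : IsP N x) (hw : IsP N w)
    (h : ∀ p q, p ≤ N → q ≤ N → r x p q = r w p q) : ∀ i, i < N → x i = w i := by
  intro i hi
  have a1 := h (i + 1) (x i + 1) hi (hx.lt i hi)
  have a2 := h i (x i + 1) hi.le (hx.lt i hi)
  have a3 := h (i + 1) (w i + 1) hi (hw.lt i hi)
  have a4 := h i (w i + 1) hi.le (hw.lt i hi)
  rw [r_succ, r_succ] at a1 a3
  split_ifs at a1 a3 <;> omega

/-- A move crossing row `k`, with values in `[q1, q2)`, which stays below `w`. -/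
lemma exists_move {N : ℕ} {x w : ℕ → ℕ} (hx : IsP N x) (hw : IsP N w) (hle : Le N x w)
    {k q1 q2 : ℕ} (hk : k ≤ N) (hq : q1 + 1 < q2) (hq2 : q2 ≤ N)
    (h1 : r x k q1 = r w k q1) (h2 : r x k q2 = r w k q2)
    (h3 : ∀ q, q1 < q → q < q2 → r w k q < r x k q) :
    ∃ i j, i < k ∧ k ≤ j ∧ j < N ∧ q1 ≤ x i ∧ x i < x j ∧ x j < q2 ∧
      ∀ p q, i < p → p ≤ j → x i < q → q ≤ x j → r w p q < r x p q := by
  have key : ∀ n, ∀ i j, j - i ≤ n → i < k → k ≤ j → j < N → q1 ≤ x i → x i < x j → x j < q2 →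
      ∃ i j, i < k ∧ k ≤ j ∧ j < N ∧ q1 ≤ x i ∧ x i < x j ∧ x j < q2 ∧
      ∀ p q, i < p → p ≤ j → x i < q → q ≤ x j → r w p q < r x p q := by
    intro n
    induction n with
    | zero => intro i j h a b; omega
    | succ n ih =>
      intro i j hn a1 a2 a3 a4 a5 a6
      by_cases hgood : ∀ p q, i < p → p ≤ j → x i < q → q ≤ x j → r w p q < r x p q
      · exact ⟨i, j, a1, a2, a3, a4, a5, a6, hgood⟩
      · push Not at hgood
        obtain ⟨p, q, b1, b2, b3, b4, b5⟩ := hgood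
        have c1 := h3 q (by omega) (by omega)
        have c2 := hle p q (by omega) (by omega)
        rcases lt_trichotomy p k with hpk | hpk | hpk
        · have e1 := (box w hpk.le (show q1 ≤ q by omega)).1
          have e2 := hle p q1 (by omega) (by omega)
          obtain ⟨i', f1, f2, f3, f4⟩ := (box x hpk.le (show q1 ≤ q by omega)).2.1 (by omega)
          exact ih i' j (by omega) f2 a2 a3 f3 (by omega) a6
        · subst hpk; omega
        · have e1 := (box w hpk.le (show q ≤ q2 by omega)).1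
          have e2 := hle p q2 (by omega) (by omega)
          obtain ⟨j', f1, f2, f3, f4⟩ := (box x hpk.le (show q ≤ q2 by omega)).2.1 (by omega)
          exact ih i j' (by omega) a1 f1 (by omega) a4 (by omega) f4
  have ha : ∃ i, 0 ≤ i ∧ i < k ∧ q1 ≤ x i ∧ x i < q1 + 1 := by
    apply (box x (Nat.zero_le k) (Nat.le_succ q1)).2.1
    have e1 := (box w (Nat.zero_le k) (Nat.le_succ q1)).1
    have := h3 (q1 + 1) (by omega) hq
    simp only [r_zero, Nat.succ_eq_add_one] at e1 ⊢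
    omega
  have hb : ∃ j, k ≤ j ∧ j < N ∧ q2 - 1 ≤ x j ∧ x j < q2 := by
    apply (box x hk (Nat.sub_le q2 1)).2.1
    have e1 := (box w hk (Nat.sub_le q2 1)).1
    have := h3 (q2 - 1) (by omega) (by omega)
    rw [r_N hx _ hq2, r_N hx _ (by omega)]
    rw [r_N hw _ hq2, r_N hw _ (by omega)] at e1
    omega
  obtain ⟨i, -, a1, a2, a3⟩ := ha
  obtain ⟨j, b1, b2, b3, b4⟩ := hb
  exact key _ i j le_rfl a1 b1 b2 a2 (by omega) b4

/-- The same, starting from a cell `(k, q0)` with strict inequality and a cell `(k, q)` to its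
right with equality. -/
lemma exists_move' {N : ℕ} {x w : ℕ → ℕ} (hx : IsP N x) (hw : IsP N w) (hle : Le N x w)
    {k q0 q : ℕ} (hk : k ≤ N) (hq0 : q0 < q) (hq : q ≤ N)
    (h0 : r w k q0 < r x k q0) (h2 : r x k q = r w k q) :
    ∃ i j, i < k ∧ k ≤ j ∧ j < N ∧ x i < x j ∧ x j < q ∧
      ∀ p q, i < p → p ≤ j → x i < q → q ≤ x j → r w p q < r x p q := by
  classical
  have e2 : ∃ q2, q0 < q2 ∧ r x k q2 = r w k q2 := ⟨q, hq0, h2⟩
  set q2 := Nat.find e2 with hq2
  have s2 := Nat.find_spec e2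
  have m2 : q2 ≤ q := Nat.find_min' e2 ⟨hq0, h2⟩
  set q1 := Nat.findGreatest (fun t => r x k t = r w k t) q0 with hq1
  have s1 : r x k q1 = r w k q1 :=
    Nat.findGreatest_spec (P := fun t => r x k t = r w k t) (Nat.zero_le q0)
      (by simp only [r_zero'])
  have m1 : q1 ≤ q0 := Nat.findGreatest_le q0
  have n1 : q1 ≠ q0 := by intro h; rw [h] at s1; omega
  obtain ⟨i, j, a1, a2, a3, a4, a5, a6, a7⟩ := exists_move hx hw hle (k := k) (q1 := q1)
    (q2 := q2) hk (by omega) (by omega) s1 s2.2 (by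
      intro t t1 t2
      have := hle k t hk (by omega)
      rcases Nat.lt_or_ge q0 t with h | h
      · have := Nat.find_min e2 t2
        push Not at this
        have := this h
        omega
      · have := Nat.findGreatest_is_greatest t1 h
        omega)
  exact ⟨i, j, a1, a2, a3, a5, by omega, a7⟩

lemma exists_move'' {N : ℕ} {x w : ℕ → ℕ} (hx : IsP N x) (hw : IsP N w) (hle : Le N x w)
    (hne : ∃ i, i < N ∧ x i ≠ w i) :
    ∃ i j, i < j ∧ j < N ∧ x i < x j ∧
      ∀ p q, i < p → p ≤ j → x i < q → q ≤ x j → r w p q < r x p q := by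
  have : ¬ ∀ p q, p ≤ N → q ≤ N → r x p q = r w p q := by
    intro h
    obtain ⟨i, hi, hne⟩ := hne
    exact hne (eq_of_r_eq hx hw h i hi)
  push Not at this
  obtain ⟨k, q0, hk, hq0, h⟩ := this
  have h' := hle k q0 hk hq0
  have hN : r x k N = r w k N := by rw [r_N' hx k hk, r_N' hw k hk]
  have : q0 ≠ N := by rintro rfl; omega
  obtain ⟨i, j, a1, a2, a3, a4, -, a6⟩ :=
    exists_move' hx hw hle (q0 := q0) (q := N) hk (by omega) le_rfl (by omega) hN
  exact ⟨i, j, by omega, a3, a4, a6⟩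

lemma Le.sw {N : ℕ} {x w : ℕ → ℕ} (hle : Le N x w) {i j : ℕ} (hij : i < j) (hx : x i < x j)
    (h : ∀ p q, i < p → p ≤ j → x i < q → q ≤ x j → r w p q < r x p q) : Le N (sw x i j) w := by
  intro p q hp hq
  rw [r_sw x hij hx]
  have := hle p q hp hq
  split_ifs with hh
  · have := h p q hh.1 hh.2.1 hh.2.2.1 hh.2.2.2; omega
  · omega

end Pool.Agent.MP_93b8e4_co.H43
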